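import Pool.Agent.H86.LAY.Hyp

/-!
MP_8046da_lc: under (H) no `ℵ_(ω+2)`-saturated ideal on `ℵ_(ω+1)` is layered.  For every such ideal `J`
there are `ℵ_(ω+1)` many subsets of `ℵ_(ω+1)` which lie in no regular subalgebra of `P(ℵ_(ω+1))/J` of
density at most `ℵ_(ω+1)`.
-/

set_option autoImplicit false

open Set Lay86
open Cardinal hiding univ
open scoped Ordinal

namespace Pool.Agent.Results.MP_8046da_lc.NowhereLayered

/-- Assume (H). For every `ℵ_(ω+2)`-saturated ideal `J` on `ℵ_(ω+1)` there is a family `S` of at most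
`ℵ_(ω+1)` subsets of `ℵ_(ω+1)` such that every regular subalgebra `A` of `P(ℵ_(ω+1))/J` containing `S`
has density greater than `ℵ_(ω+1)`. -/
theorem result (H : HypH) (J : Set (Set (Al (ω + 1)))) (hJ : IsIdeal (ℵ_ (ω + 1)) J)
    (hsat : Saturated (ℵ_ (ω + 2)) J) :
    ∃ S : Set (Set (Al (ω + 1))), #S ≤ ℵ_ (ω + 1) ∧ ∀ A D : Set (Set (Al (ω + 1))), S ⊆ A →
      IsRegularSub J A → IsDenseIn J A D → ℵ_ (ω + 1) < #D := by
  refine main_aleph ?_ hJ hsat
  intro n
  refine (pow_le_of_H H n).trans_lt ?_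
  rw [aleph_lt_aleph]
  exact (Ordinal.natCast_lt_omega0 (n + 1)).trans (Order.lt_add_one_iff.mpr le_rfl)

end Pool.Agent.Results.MP_8046da_lc.NowhereLayered
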